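import Pool.Agent.Q275.SymOrdE

/-!
# MP_bcad5b_nt, Q1: the number of element orders of the symmetric group is at most `exp √n`

Proof. If `w m` denotes the sum of the prime powers exactly dividing `m`, every order `m` of a permutation
of `n` points satisfies `w m ≤ n`.  For `n ≤ 860` the integers of weight at most `n` are counted exactly.
For larger `n` Rankin's method is used: for `860 ≤ n ≤ 250000` with the exact primes up to `2010` and the
integers prime to `30` in place of the larger primes, and for `n ≥ 250000` with the integers prime to `30`
in place of all primes from `7` on.
-/

set_option autoImplicit false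

namespace Pool.Agent.Results.MP_bcad5b_nt.ExpSqrt

/-- For every positive integer `n`, the number of different orders of the elements of `Sym(n)` is at most
`exp(√n)`. -/
theorem result : ∀ n : ℕ, 0 < n →
    ({m : ℕ | ∃ σ : Equiv.Perm (Fin n), orderOf σ = m}.ncard : ℝ) ≤ Real.exp (Real.sqrt n) :=
  fun n _ => Pool.Agent.Q275.SymOrd.all n

end Pool.Agent.Results.MP_bcad5b_nt.ExpSqrt
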